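import Pool.Agent.Y661.HE.Stm
import Pool.Agent.H4R2.HD.BA
import Pool.Agent.H4R2.HU.UE

/-!
# Project HE, piece ENE: the first three coefficients of the energy
-/

set_option autoImplicit false

namespace Pool.Agent.Y925.HE.ENE

open scoped BigOperators ENNReal
open MeasureTheory Filter
open Pool.Agent.H12R2.And (V ee)
open Pool.Agent.H4R2.HD (Av Gn ind)
open Pool.Agent.Y661.HE

variable {d : ℕ}

theorem Av_neg (n : ℕ) (f : V d → ℝ) (x : V d) :
    (Av^[n] (fun y => -f y)) x = -(Av^[n] f) x := by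
  have h := Pool.Agent.H4R2.HD.BA.iter_smul n (-1) f
  have h1 : (fun y => -f y) = fun y => (-1 : ℝ) * f y := by
    funext y
    ring
  rw [h1, h]
  ring

theorem Gn_neg (N : ℕ) (f : V d → ℝ) (x : V d) : Gn N (fun y => -f y) x = -Gn N f x := by
  unfold Gn
  simp only [Av_neg]
  rw [Finset.sum_neg_distrib, neg_div]

/-- the product of a symmetric law is symmetric -/
theorem map_neg (μ : Measure ℝ) [IsProbabilityMeasure μ] (hs : μ.map (fun t => -t) = μ) :
    (PI d μ).map (fun W : V d → ℝ => -W) = PI d μ := by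
  have h := Measure.infinitePi_map_pi (μ := fun _ : Fin d → ℤ => μ)
    (f := fun (_ : Fin d → ℤ) (t : ℝ) => -t) (fun _ => measurable_neg)
  simp only [hs] at h
  exact h

theorem integral_neg_eq (μ : Measure ℝ) [IsProbabilityMeasure μ] (hs : μ.map (fun t => -t) = μ)
    (f : (V d → ℝ) → ℝ) : ∫ W, f (-W) ∂(PI d μ) = ∫ W, f W ∂(PI d μ) := by
  have h := MeasureTheory.integral_map_equiv (μ := PI d μ) (MeasurableEquiv.neg (V d → ℝ)) f
  have h1 : (PI d μ).map (MeasurableEquiv.neg (V d → ℝ)) = PI d μ := map_neg μ hs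
  rw [h1] at h
  exact h.symm

theorem integral_odd (μ : Measure ℝ) [IsProbabilityMeasure μ] (hs : μ.map (fun t => -t) = μ)
    (f : (V d → ℝ) → ℝ) (hf : ∀ W, f (-W) = -f W) : ∫ W, f W ∂(PI d μ) = 0 := by
  have h := integral_neg_eq μ hs f
  simp only [hf, integral_neg] at h
  linarith

theorem bdd (μ : Measure ℝ) [IsProbabilityMeasure μ] (c : ℝ) (hc : ∀ᵐ t ∂μ, |t| ≤ c) (y : V d) :
    ∀ᵐ W ∂(PI d μ), |W y| ≤ c := by
  have h := measurePreserving_eval_infinitePi (fun _ : Fin d → ℤ => μ) y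
  exact h.quasiMeasurePreserving.ae hc

theorem integral_coord (μ : Measure ℝ) [IsProbabilityMeasure μ] (g : ℝ → ℝ)
    (hg : Measurable g) (y : V d) : ∫ W, g (W y) ∂(PI d μ) = ∫ t, g t ∂μ := by
  have h := measurePreserving_eval_infinitePi (fun _ : Fin d → ℤ => μ) y
  have h1 := integral_map (μ := PI d μ) (φ := Function.eval y) h.measurable.aemeasurable
    (f := g) hg.aestronglyMeasurable
  have h2 : (PI d μ).map (Function.eval y) = μ := h.map_eq
  rw [h2] at h1
  exact h1.symm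

theorem int_prod (μ : Measure ℝ) [IsProbabilityMeasure μ] (c : ℝ) (hc : ∀ᵐ t ∂μ, |t| ≤ c)
    (y : V d) : Integrable (fun W : V d → ℝ => W 0 * W y) (PI d μ) := by
  refine Integrable.of_bound ?_ (c * c) ?_
  · exact ((measurable_pi_apply (0 : V d)).mul (measurable_pi_apply y)).aestronglyMeasurable
  · filter_upwards [bdd μ c hc (0 : V d), bdd μ c hc y] with W h1 h2
    rw [Real.norm_eq_abs, abs_mul]
    exact mul_le_mul h1 h2 (abs_nonneg _) ((abs_nonneg _).trans h1)

theorem cov0 (μ : Measure ℝ) [IsProbabilityMeasure μ] (v : ℝ) 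
    (hs : μ.map (fun t => -t) = μ) (hv : ∫ t, t ^ 2 ∂μ = v) (y : V d) :
    ∫ W : V d → ℝ, W 0 * W y ∂(PI d μ) = v * ind (0 : V d) y := by
  by_cases hy : y = 0
  · subst hy
    have h := integral_coord (d := d) μ (fun t => t ^ 2) (measurable_id.pow_const 2) 0
    have h1 : (fun W : V d → ℝ => W 0 * W 0) = fun W => (W 0) ^ 2 := by
      funext W
      ring
    rw [h1, h, hv]
    simp [ind]
  · have hi := (ProbabilityTheory.iIndepFun_infinitePi (P := fun _ : Fin d → ℤ => μ)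
      (X := fun _ (t : ℝ) => t) (fun _ => measurable_id)).indepFun (i := 0) (j := y)
      (fun h => hy h.symm)
    have h1 := hi.integral_mul_eq_mul_integral (measurable_pi_apply _).aestronglyMeasurable
      (measurable_pi_apply _).aestronglyMeasurable
    have h2 : ∫ W : V d → ℝ, W 0 ∂(PI d μ) = 0 := integral_odd μ hs _ (fun W => by simp)
    have h3 : ∫ W : V d → ℝ, W 0 * W y ∂(PI d μ) =
        (∫ W : V d → ℝ, W 0 ∂(PI d μ)) * ∫ W : V d → ℝ, W y ∂(PI d μ) := h1
    rw [h3, h2, zero_mul]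
    simp [ind, hy]

theorem cov (μ : Measure ℝ) [IsProbabilityMeasure μ] (c v : ℝ) (hc : ∀ᵐ t ∂μ, |t| ≤ c)
    (hs : μ.map (fun t => -t) = μ) (hv : ∫ t, t ^ 2 ∂μ = v) (n : ℕ) (x : V d) :
    Integrable (fun W : V d → ℝ => W 0 * (Av^[n] W) x) (PI d μ) ∧
    ∫ W : V d → ℝ, W 0 * (Av^[n] W) x ∂(PI d μ) = v * (Av^[n] (ind (0 : V d))) x := by
  have h := Pool.Agent.H4R2.HU.UE.Av_int' (P := PI d μ) (fun (W : V d → ℝ) y => W 0 * W y)
    (int_prod μ c hc) n x
  have h1 : ∀ W : V d → ℝ, (Av^[n] (fun y => W 0 * W y)) x = W 0 * (Av^[n] W) x := by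
    intro W
    rw [Pool.Agent.H4R2.HD.BA.iter_smul]
  simp only [h1] at h
  refine ⟨h.1, ?_⟩
  rw [h.2]
  simp only [cov0 μ v hs hv]
  rw [Pool.Agent.H4R2.HD.BA.iter_smul]

theorem main (_hB : S_BND) (_hM : S_MEA) : S_ENE := by
  intro d hd N c v μ _ hc hs hv
  have e1 : en N (PI d μ) 1 = 0 := by
    change ∫ W, W 0 * un N (PI d μ) 0 W 0 ∂(PI d μ) = 0
    refine integral_odd μ hs _ fun W => ?_
    rw [un_zero, un_zero]
    simp
  have hg0 : ∀ W : V d → ℝ, gn N (PI d μ) 0 W = fun x => -W x := by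
    intro W
    funext x
    unfold gn
    rw [zero_add, Finset.sum_range_one, zero_add, e1, un_zero]
    ring
  have hu1 : ∀ (W : V d → ℝ) (x : V d), un N (PI d μ) 1 W x = -Gn N W x := by
    intro W x
    rw [un_succ, hg0, Gn_neg]
  have hu1n : ∀ (W : V d → ℝ) (x : V d), un N (PI d μ) 1 (-W) x = -un N (PI d μ) 1 W x := by
    intro W x
    rw [hu1, hu1]
    have h : (-W) = fun y => -W y := rfl
    rw [h, Gn_neg]
  have hg1 : ∀ W : V d → ℝ, gn N (PI d μ) 1 (-W) = gn N (PI d μ) 1 W := by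
    intro W
    funext x
    unfold gn
    rw [Finset.sum_range_succ, Finset.sum_range_one, Finset.sum_range_succ,
      Finset.sum_range_one, zero_add, e1, hu1n]
    simp only [Nat.sub_self, un_zero, Pi.neg_apply]
    ring
  refine ⟨e1, ?_, ?_⟩
  · change ∫ W, W 0 * un N (PI d μ) 1 W 0 ∂(PI d μ) = _
    have h1 : ∀ W : V d → ℝ, W 0 * un N (PI d μ) 1 W 0 =
        -(2 * (d : ℝ))⁻¹ * ∑ j ∈ Finset.range N, W 0 * (Av^[j] W) 0 := by
      intro W
      rw [hu1]
      unfold Gn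
      rw [← Finset.mul_sum]
      ring
    simp only [h1]
    rw [integral_const_mul, integral_finsetSum _ fun j _ => (cov μ c v hc hs hv j 0).1]
    simp only [(cov μ c v hc hs hv _ 0).2]
    rw [← Finset.mul_sum]
    ring
  · change ∫ W, W 0 * un N (PI d μ) 2 W 0 ∂(PI d μ) = 0
    refine integral_odd μ hs _ fun W => ?_
    rw [un_succ, un_succ, hg1]
    simp

end Pool.Agent.Y925.HE.ENE
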